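import Pool.Agent.H54.K2S.Lab2
import Pool.Agent.H13.K2S.OcFam

/-!
# Fixed velocity block, increasing windows: the block is independent of the exact position

`H3Stmt`: for a fixed velocity block `(q, q + X]` the block variable does not depend on the window;
the context of a longer window and the position inside it are functions of the context of a shorter
window up to a bounded number of values, so the differences telescope.

`H3bStmt`: symmetry of the mutual information in one context.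
-/

set_option autoImplicit false

namespace Pool.K2S

open Finset Real
open Pool.Agent.H49.Ent Pool.Agent.H32.Dense Pool.STK Pool.KA Pool.KSAT

namespace H3

variable {J : ℕ}

theorem inv_le {x y : ℕ} (h : x ≤ y) {c : ℝ} (hc : 0 ≤ c) : c / (2 : ℝ) ^ y ≤ c / 2 ^ x :=
  div_le_div_of_nonneg_left hc (by positivity) (pow_le_pow_right₀ (by norm_num) h)

theorem pos_A {F : Fam 2 J} {A : F.Ω → Prop} {ω : F.Ω}
    (h : 0 < Pool.Agent.H49.Ent.cond F.p A True ω) : A ω := by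
  have := ((cond_pos_iff F.isLaw.nonneg A True ω).1 h).2
  simpa using this

theorem other_ne (i₀ : Fin 2) : (1 - i₀ : Fin 2) ≠ i₀ := by
  fin_cases i₀ <;> decide

theorem eq_other {i₀ j : Fin 2} (h : j ≠ i₀) : j = 1 - i₀ := by
  revert h
  fin_cases i₀ <;> fin_cases j <;> decide

/-- The chart coordinate of the velocity block. -/
theorem gd_chart (F : Fam 2 J) (q l : ℕ) (i₀ : Fin 2) (z : F.Ω → Fin 2 → ℝ) (ω : F.Ω) :
    F.gd q l i₀ z ω i₀ = Int.fract (2 ^ q * F.d ω i₀) := by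
  unfold Fam.gd
  rw [Kin.pco_chart]

/-- The position inside the context. -/
theorem yv_eq (F : Fam 2 J) {w : ℕ} (hw : w ≤ J) (q l : ℕ) (i₀ : Fin 2) (z : F.Ω → Fin 2 → ℝ)
    (ω : F.Ω) : yv F i₀ w q l z ω = 2 ^ (q + w) * F.x ω i₀ -
      (F.gps w (q + w) l i₀ z ω i₀ + F.wt w ω * F.gvl q l i₀ z ω i₀) := by
  have h1 := Lab.pos_eq F hw q l i₀ z ω i₀
  rw [Kin.pco_chart] at h1
  unfold yv
  rw [Lab.tw_eq F hw ω]
  linarith

/-- Two places with the same label and time. -/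
theorem yv_sub (F : Fam 2 J) {w : ℕ} (hw : w ≤ J) {q l : ℕ} {i₀ : Fin 2}
    {z : F.Ω → Fin 2 → ℝ} {ω ω' : F.Ω} (hb : F.qlb w q l i₀ z ω = F.qlb w q l i₀ z ω')
    (hT : F.T ω = F.T ω') :
    yv F i₀ w q l z ω - yv F i₀ w q l z ω' = 2 ^ (q + w) * F.x ω i₀ - 2 ^ (q + w) * F.x ω' i₀ := by
  obtain ⟨_, _, h3, h4, _⟩ := Lab.glb_ext hb
  rw [yv_eq F hw, yv_eq F hw, h3, h4]
  unfold Fam.wt
  rw [hT]
  ring

variable {F : Fam 2 J} {i₀ : Fin 2} {A : F.Ω → Prop} {f : (Fin 2 → ℤ) × (ℕ × F.ζ) → Fin 2 → ℝ}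

/-- The block has at most the full entropy. -/
theorem gd_full {q l X : ℕ} {z : F.Ω → Fin 2 → ℝ} {S : Type}
    (hQ : IsLaw (Pool.Agent.H49.Ent.cond F.p A True)) (G : F.Ω → S) :
    CH (Pool.Agent.H49.Ent.cond F.p A True) (fun ω => ⌊(2 : ℝ) ^ X * F.gd q l i₀ z ω i₀⌋) G ≤
      X * Real.log 2 + Real.log 5 := by
  have key := Lab.CH_int_const hQ (fun ω => ⌊(2 : ℝ) ^ X * F.gd q l i₀ z ω i₀⌋) G
    (c := 2 ^ X + 1) (by
      intro ω ω' _ _ _
      have h1 := Lab.gd_mem F q l i₀ z ω i₀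
      have h2 := Lab.gd_mem F q l i₀ z ω' i₀
      refine Plk.floor_sub_lt ?_
      rw [← mul_sub, abs_mul, abs_of_pos (by positivity : (0 : ℝ) < 2 ^ X)]
      have h3 : |F.gd q l i₀ z ω i₀ - F.gd q l i₀ z ω' i₀| ≤ 1 := by
        rw [abs_le]
        constructor <;> linarith [h1.1, h1.2, h2.1, h2.2]
      calc (2 : ℝ) ^ X * |F.gd q l i₀ z ω i₀ - F.gd q l i₀ z ω' i₀| ≤ 2 ^ X * 1 :=
            mul_le_mul_of_nonneg_left h3 (by positivity)
        _ = 2 ^ X := mul_one _)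
  refine key.trans ?_
  have h1 : (1 : ℝ) ≤ 2 ^ X := one_le_pow₀ (by norm_num)
  have h2 : Real.log (2 * (2 ^ X + 1) + 1) ≤ Real.log (5 * 2 ^ X) :=
    Real.log_le_log (by positivity) (by linarith)
  rw [Real.log_mul (by norm_num) (by positivity), Real.log_pow] at h2
  linarith

/-- **One step.** -/
theorem step {w l w' l' q X H : ℕ} {z z' : F.Ω → Fin 2 → ℝ}
    (hQ : IsLaw (Pool.Agent.H49.Ent.cond F.p A True))
    (hW : Win F i₀ A f w l z) (hW' : Win F i₀ A f w' l' z') (hwJ' : w' ≤ J)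
    (hw : w + X ≤ w') (hl : l ≤ l') (_hH : q + l ≤ H) :
    CH (Pool.Agent.H49.Ent.cond F.p A True)
        (fun ω => ⌊(2 : ℝ) ^ X * F.gd q l' i₀ z' ω i₀⌋)
        (fun ω => (F.qlb w' q l' i₀ z' ω, F.T ω)) ≤
      CH (Pool.Agent.H49.Ent.cond F.p A True)
        (fun ω => ⌊(2 : ℝ) ^ X * F.gd q l i₀ z ω i₀⌋)
        (fun ω => (⌊(2 : ℝ) ^ X * yv F i₀ w q l z ω⌋, (F.qlb w q l i₀ z ω, F.T ω))) +
      (Real.log 19 + 2 * ((2 : ℕ) * Real.log 23) + Real.log 7) := by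
  have h0 := hQ.nonneg
  have hwJ : w ≤ J := by omega
  -- the frames of the two windows
  have hzz : ∀ ω, 0 < Pool.Agent.H49.Ent.cond F.p A True ω → ∀ j,
      2 ^ l * |z ω j - z' ω j| ≤ 4 := by
    intro ω hω j
    have hA := pos_A hω
    by_cases hj : j = i₀
    · rw [hj, hW.z0, hW'.z0, sub_self, abs_zero, mul_zero]
      norm_num
    · have h1 := hW.cl ω hA j hj
      have h2 := hW'.cl ω hA j hj
      have h3 := inv_le hl (zero_le_two (α := ℝ))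
      have h4 : |z ω j - z' ω j| ≤ 4 / 2 ^ l := by
        have e : (4 : ℝ) / 2 ^ l = 2 / 2 ^ l + 2 / 2 ^ l := by ring
        rw [e]
        rw [abs_le] at h1 h2 ⊢
        constructor <;> linarith [h1.1, h1.2, h2.1, h2.2]
      calc (2 : ℝ) ^ l * |z ω j - z' ω j| ≤ 2 ^ l * (4 / 2 ^ l) :=
            mul_le_mul_of_nonneg_left h4 (by positivity)
        _ = 4 := by field_simp
  -- the frame of the longer window
  have c1 : CH (Pool.Agent.H49.Ent.cond F.p A True) z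
      (fun ω => (F.qlb w' q l' i₀ z' ω, F.T ω)) ≤ Real.log 19 := by
    have k1 := Lab.CH_int_const hQ (fun ω => ⌊(2 : ℝ) ^ l * z ω (1 - i₀)⌋)
      (fun ω => (F.qlb w' q l' i₀ z' ω, F.T ω)) (c := 9) (by
        intro ω ω' hω hω' h
        have e1 : z' ω = z' ω' := (Lab.glb_ext (Prod.ext_iff.mp h).1).2.1
        have h1 := hzz ω hω (1 - i₀)
        have h2 := hzz ω' hω' (1 - i₀)
        rw [← e1] at h2
        have h7 : |(2 : ℝ) ^ l * z ω (1 - i₀) - 2 ^ l * z ω' (1 - i₀)| ≤ 8 := by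
          have g1 : |(2 : ℝ) ^ l * z ω (1 - i₀) - 2 ^ l * z' ω (1 - i₀)| ≤ 4 := by
            rw [← mul_sub, abs_mul, abs_of_pos (by positivity : (0 : ℝ) < 2 ^ l)]
            exact h1
          have g2 : |(2 : ℝ) ^ l * z ω' (1 - i₀) - 2 ^ l * z' ω (1 - i₀)| ≤ 4 := by
            rw [← mul_sub, abs_mul, abs_of_pos (by positivity : (0 : ℝ) < 2 ^ l)]
            exact h2
          rw [abs_le] at g1 g2 ⊢
          constructor <;> linarith [g1.1, g1.2, g2.1, g2.2]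
        have := Plk.floor_sub_lt h7
        linarith)
    have k2 : CH (Pool.Agent.H49.Ent.cond F.p A True) z
        (fun ω => (F.qlb w' q l' i₀ z' ω, F.T ω)) ≤
        CH (Pool.Agent.H49.Ent.cond F.p A True) (fun ω => ⌊(2 : ℝ) ^ l * z ω (1 - i₀)⌋)
          (fun ω => (F.qlb w' q l' i₀ z' ω, F.T ω)) := by
      refine CH_mono_left h0 ?_
      intro ω ω' _ _ h
      have h1 : ⌊(2 : ℝ) ^ l * z ω (1 - i₀)⌋ = ⌊(2 : ℝ) ^ l * z ω' (1 - i₀)⌋ :=
        (Prod.ext_iff.mp h).1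
      obtain ⟨k, hk⟩ := hW.gr ω (1 - i₀)
      obtain ⟨k', hk'⟩ := hW.gr ω' (1 - i₀)
      have e1 : (2 : ℝ) ^ l * z ω (1 - i₀) = k := by
        rw [hk]
        field_simp
      have e2 : (2 : ℝ) ^ l * z ω' (1 - i₀) = k' := by
        rw [hk']
        field_simp
      rw [e1, e2, Int.floor_intCast, Int.floor_intCast] at h1
      funext j
      by_cases hj : j = i₀
      · rw [hj, hW.z0, hW.z0]
      · rw [eq_other hj, hk, hk', h1]
    refine (k2.trans k1).trans (Real.log_le_log (by norm_num) (by norm_num))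
  -- the label
  have c2 : CH (Pool.Agent.H49.Ent.cond F.p A True) (F.qlb w q l i₀ z)
      (fun ω => (z ω, (F.qlb w' q l' i₀ z' ω, F.T ω))) ≤ 2 * ((2 : ℕ) * Real.log 23) := by
    have := Lab.CH_qlb_vel (F := F) (i0 := i₀) (C := 4) hQ (w' := w') (q := q)
      (lam' := l') (w := w) (lam := l) (z := z) (z' := z') hwJ' (by omega) hl
      (by norm_num) hzz (fun ω => (z ω, (F.qlb w' q l' i₀ z' ω, F.T ω)))
      (fun ω ω' _ _ h => by
        have h1 := Prod.ext_iff.mp h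
        have h2 := Prod.ext_iff.mp h1.2
        exact ⟨h2.1, h1.1⟩)
    refine this.trans (le_of_eq ?_)
    norm_num
  -- the position inside the longer window
  have c3 : CH (Pool.Agent.H49.Ent.cond F.p A True)
      (fun ω => ⌊(2 : ℝ) ^ X * yv F i₀ w q l z ω⌋)
      (fun ω => (F.qlb w q l i₀ z ω, (z ω, (F.qlb w' q l' i₀ z' ω, F.T ω)))) ≤
      Real.log 7 := by
    have k1 := Lab.CH_int_const hQ (fun ω => ⌊(2 : ℝ) ^ X * yv F i₀ w q l z ω⌋)
      (fun ω => (F.qlb w q l i₀ z ω, (z ω, (F.qlb w' q l' i₀ z' ω, F.T ω)))) (c := 3) (by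
        intro ω ω' hω hω' h
        have h1 := Prod.ext_iff.mp h
        have h2 := Prod.ext_iff.mp h1.2
        have h3 := Prod.ext_iff.mp h2.2
        have e1 : F.qlb w q l i₀ z ω = F.qlb w q l i₀ z ω' := h1.1
        have e3 : F.qlb w' q l' i₀ z' ω = F.qlb w' q l' i₀ z' ω' := h3.1
        have e4 : F.T ω = F.T ω' := h3.2
        have n1 := yv_sub F hwJ e1 e4
        have hs : |F.t ω - (F.T1 w' ω : ℝ) / 2 ^ w'| ≤ 1 / 2 ^ w' := by
          have := Lab.time_near F hwJ' le_rfl (v := w') (min_eq_left hwJ').symm ω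
          rw [Lab.T1_J] at this
          exact this
        have key := Lab.near_pos_W (F := F) (s := F.t ω) (k := q + w')
          (a2 := q + w + X) e3 hs le_rfl le_rfl (by omega)
        have x1 : F.xa (F.t ω) ω = F.x ω := rfl
        have x2 : F.xa (F.t ω) ω' = F.x ω' := by
          have : F.t ω = F.t ω' := by
            unfold Fam.t
            rw [e4]
          rw [this]
          rfl
        rw [x1, x2] at key
        have n2 : |(2 : ℝ) ^ X * yv F i₀ w q l z ω - 2 ^ X * yv F i₀ w q l z ω'| ≤ 2 := by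
          rw [← mul_sub, n1, ← mul_sub, ← mul_assoc, ← pow_add, Nat.add_comm X, mul_sub]
          exact key
        have := Plk.floor_sub_lt n2
        linarith)
    refine k1.trans (le_of_eq (by norm_num))
  -- position and context of the longer window from the shorter window
  have d1 : CH (Pool.Agent.H49.Ent.cond F.p A True)
      (fun ω => (⌊(2 : ℝ) ^ X * yv F i₀ w q l z ω⌋, (F.qlb w q l i₀ z ω, F.T ω)))
      (fun ω => (F.qlb w' q l' i₀ z' ω, F.T ω)) ≤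
      Real.log 19 + 2 * ((2 : ℕ) * Real.log 23) + Real.log 7 := by
    have a1 := CH_le_add h0
      (fun ω => (⌊(2 : ℝ) ^ X * yv F i₀ w q l z ω⌋, (F.qlb w q l i₀ z ω, F.T ω))) z
      (fun ω => (F.qlb w' q l' i₀ z' ω, F.T ω))
    have a2 := CH_le_add h0
      (fun ω => (⌊(2 : ℝ) ^ X * yv F i₀ w q l z ω⌋, (F.qlb w q l i₀ z ω, F.T ω)))
      (F.qlb w q l i₀ z) (fun ω => (z ω, (F.qlb w' q l' i₀ z' ω, F.T ω)))
    have a3 : CH (Pool.Agent.H49.Ent.cond F.p A True)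
        (fun ω => (⌊(2 : ℝ) ^ X * yv F i₀ w q l z ω⌋, (F.qlb w q l i₀ z ω, F.T ω)))
        (fun ω => (F.qlb w q l i₀ z ω, (z ω, (F.qlb w' q l' i₀ z' ω, F.T ω)))) ≤
        CH (Pool.Agent.H49.Ent.cond F.p A True)
        (fun ω => ⌊(2 : ℝ) ^ X * yv F i₀ w q l z ω⌋)
        (fun ω => (F.qlb w q l i₀ z ω, (z ω, (F.qlb w' q l' i₀ z' ω, F.T ω)))) := by
      refine CH_mono_left h0 ?_
      intro ω ω' _ _ h
      have h1 := Prod.ext_iff.mp h
      have h2 := Prod.ext_iff.mp h1.2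
      have h3 := Prod.ext_iff.mp h2.2
      have h4 := Prod.ext_iff.mp h3.2
      exact Prod.ext h1.1 (Prod.ext h2.1 h4.2)
    linarith
  have d2 := CH_le_add h0 (fun ω => ⌊(2 : ℝ) ^ X * F.gd q l' i₀ z' ω i₀⌋)
    (fun ω => (⌊(2 : ℝ) ^ X * yv F i₀ w q l z ω⌋, (F.qlb w q l i₀ z ω, F.T ω)))
    (fun ω => (F.qlb w' q l' i₀ z' ω, F.T ω))
  have d3 : CH (Pool.Agent.H49.Ent.cond F.p A True)
      (fun ω => ⌊(2 : ℝ) ^ X * F.gd q l' i₀ z' ω i₀⌋)
      (fun ω => ((⌊(2 : ℝ) ^ X * yv F i₀ w q l z ω⌋, (F.qlb w q l i₀ z ω, F.T ω)),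
        (F.qlb w' q l' i₀ z' ω, F.T ω))) ≤
      CH (Pool.Agent.H49.Ent.cond F.p A True)
      (fun ω => ⌊(2 : ℝ) ^ X * F.gd q l i₀ z ω i₀⌋)
      (fun ω => (⌊(2 : ℝ) ^ X * yv F i₀ w q l z ω⌋, (F.qlb w q l i₀ z ω, F.T ω))) := by
    have e : (fun ω => ⌊(2 : ℝ) ^ X * F.gd q l' i₀ z' ω i₀⌋) =
        (fun ω => ⌊(2 : ℝ) ^ X * F.gd q l i₀ z ω i₀⌋) := by
      funext ω
      rw [gd_chart, gd_chart]
    rw [e]
    exact CH_mono_cond h0 (fun ω ω' _ _ h => (Prod.ext_iff.mp h).1)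
  linarith

end H3

/-- **(H3')** -/
theorem h3 : H3Stmt := by
  obtain ⟨C, hC⟩ : ∃ C : ℝ, C = (Real.log 19 + 2 * ((2 : ℕ) * Real.log 23) + Real.log 7) +
    Real.log 5 := ⟨_, rfl⟩
  refine ⟨C, ?_⟩
  intro J F i₀ A f n N q X H w l z hQ hF hj hs
  have h0 := hQ.nonneg
  have l19 : 0 ≤ Real.log 19 := Real.log_nonneg (by norm_num)
  have l7 : 0 ≤ Real.log 7 := Real.log_nonneg (by norm_num)
  have l23 : 0 ≤ Real.log 23 := Real.log_nonneg (by norm_num)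
  have l5 : 0 ≤ Real.log 5 := Real.log_nonneg (by norm_num)
  have k4 : Real.log 5 ≤ C := by
    rw [hC]
    have : (0 : ℝ) ≤ 2 * ((2 : ℕ) * Real.log 23) := by positivity
    linarith
  -- the terms telescope
  have key : ∀ k ≤ N, ∑ j ∈ Finset.range k,
      (CH (Pool.Agent.H49.Ent.cond F.p A True)
          (fun ω => ⌊(2 : ℝ) ^ X * F.gd q (l j) i₀ (z j) ω i₀⌋)
          (fun ω => (F.qlb (w j) q (l j) i₀ (z j) ω, F.T ω)) -
        CH (Pool.Agent.H49.Ent.cond F.p A True)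
          (fun ω => ⌊(2 : ℝ) ^ X * F.gd q (l j) i₀ (z j) ω i₀⌋)
          (fun ω => (⌊(2 : ℝ) ^ X * yv F i₀ (w j) q (l j) (z j) ω⌋,
            (F.qlb (w j) q (l j) i₀ (z j) ω, F.T ω)))) ≤
      CH (Pool.Agent.H49.Ent.cond F.p A True)
          (fun ω => ⌊(2 : ℝ) ^ X * F.gd q (l 0) i₀ (z 0) ω i₀⌋)
          (fun ω => (F.qlb (w 0) q (l 0) i₀ (z 0) ω, F.T ω)) -
        CH (Pool.Agent.H49.Ent.cond F.p A True)
          (fun ω => ⌊(2 : ℝ) ^ X * F.gd q (l k) i₀ (z k) ω i₀⌋)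
          (fun ω => (F.qlb (w k) q (l k) i₀ (z k) ω, F.T ω)) + C * k := by
    intro k
    induction k with
    | zero =>
      intro _
      simp
    | succ k ih =>
      intro hk
      have ih' := ih (by omega)
      obtain ⟨a1, a2, a3⟩ := hj k (by omega)
      obtain ⟨b1, b2, b3⟩ := hj (k + 1) hk
      obtain ⟨c1, c2⟩ := hs k (by omega)
      have st := H3.step hQ a1 b1 (by omega) c1 c2 a3
      rw [Finset.sum_range_succ]
      push_cast
      have e1 : C * ((k : ℝ) + 1) = C * k + C := by ring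
      rw [e1]
      have e2 : Real.log 19 + 2 * ((2 : ℕ) * Real.log 23) + Real.log 7 ≤ C := by
        rw [hC]
        linarith
      linarith
  have k1 := key N le_rfl
  have k2 := H3.gd_full (q := q) (l := l 0) (X := X) (i₀ := i₀) (z := z 0) hQ
    (fun ω => (F.qlb (w 0) q (l 0) i₀ (z 0) ω, F.T ω))
  have k3 := CH_nonneg h0 (fun ω => ⌊(2 : ℝ) ^ X * F.gd q (l N) i₀ (z N) ω i₀⌋)
    (fun ω => (F.qlb (w N) q (l N) i₀ (z N) ω, F.T ω))
  have e1 : C * ((N : ℝ) + 1) = C * N + C := by ring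
  linarith

/-- **(H3)** -/
theorem h3b : H3bStmt := by
  refine ⟨Real.log 5 + Real.log 7, ?_⟩
  intro J F i₀ A f w q l X z η ε hQ _hW hJ hη hε
  have h0 := hQ.nonneg
  have hw : w ≤ J := by omega
  obtain ⟨Q, hQd⟩ : ∃ Q, Q = Pool.Agent.H49.Ent.cond F.p A True := ⟨_, rfl⟩
  rw [← hQd] at h0 hQ hη hε ⊢
  -- the position and the digits inside the context
  have c1 : CH Q (fun ω => ⌊(2 : ℝ) ^ (q + w + X) * F.x ω i₀⌋)
      (fun ω => (⌊(2 : ℝ) ^ X * yv F i₀ w q l z ω⌋, (F.qlb w q l i₀ z ω, F.T ω))) ≤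
      Real.log 5 := by
    have k1 := Lab.CH_int_const hQ (fun ω => ⌊(2 : ℝ) ^ (q + w + X) * F.x ω i₀⌋)
      (fun ω => (⌊(2 : ℝ) ^ X * yv F i₀ w q l z ω⌋, (F.qlb w q l i₀ z ω, F.T ω)))
      (c := 2) (by
        intro ω ω' hω hω' h
        have h1 := Prod.ext_iff.mp h
        have h2 := Prod.ext_iff.mp h1.2
        have e0 : ⌊(2 : ℝ) ^ X * yv F i₀ w q l z ω⌋ = ⌊(2 : ℝ) ^ X * yv F i₀ w q l z ω'⌋ := h1.1
        have e1 : F.qlb w q l i₀ z ω = F.qlb w q l i₀ z ω' := h2.1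
        have e4 : F.T ω = F.T ω' := h2.2
        have n1 := H3.yv_sub F hw e1 e4
        have n2 := Plk.abs_sub_lt_of_floor e0
        have n3 : |(2 : ℝ) ^ (q + w + X) * F.x ω i₀ - 2 ^ (q + w + X) * F.x ω' i₀| ≤ 1 := by
          rw [← mul_sub, n1, ← mul_sub, ← mul_assoc, ← pow_add, Nat.add_comm X, mul_sub] at n2
          exact n2
        have := Plk.floor_sub_lt n3
        linarith)
    refine k1.trans (le_of_eq (by norm_num))
  have c2 : CH Q (fun ω => ⌊(2 : ℝ) ^ X * yv F i₀ w q l z ω⌋)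
      (fun ω => (⌊(2 : ℝ) ^ X * F.gu w (q + w) l i₀ z ω i₀⌋,
        (⌊(2 : ℝ) ^ X * F.gd q l i₀ z ω i₀⌋, (F.qlb w q l i₀ z ω, F.T ω)))) ≤ Real.log 7 := by
    have k1 := Lab.CH_int_const hQ (fun ω => ⌊(2 : ℝ) ^ X * yv F i₀ w q l z ω⌋)
      (fun ω => (⌊(2 : ℝ) ^ X * F.gu w (q + w) l i₀ z ω i₀⌋,
        (⌊(2 : ℝ) ^ X * F.gd q l i₀ z ω i₀⌋, (F.qlb w q l i₀ z ω, F.T ω))))
      (c := 3) (by
        intro ω ω' hω hω' h
        have h1 := Prod.ext_iff.mp h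
        have h2 := Prod.ext_iff.mp h1.2
        have h3 := Prod.ext_iff.mp h2.2
        have e0 : ⌊(2 : ℝ) ^ X * F.gu w (q + w) l i₀ z ω i₀⌋ =
          ⌊(2 : ℝ) ^ X * F.gu w (q + w) l i₀ z ω' i₀⌋ := h1.1
        have e1 : ⌊(2 : ℝ) ^ X * F.gd q l i₀ z ω i₀⌋ =
          ⌊(2 : ℝ) ^ X * F.gd q l i₀ z ω' i₀⌋ := h2.1
        have e4 : F.T ω = F.T ω' := h3.2
        have n1 := Plk.abs_sub_lt_of_floor e0
        have n2 := Plk.abs_sub_lt_of_floor e1
        have t0 := Lab.wt_mem F w ω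
        rw [← Lab.tw_eq F hw ω] at t0
        have t1 : F.tw w ω = F.tw w ω' := by
          rw [Lab.tw_eq F hw ω, Lab.tw_eq F hw ω']
          unfold Fam.wt
          rw [e4]
        have n3 : |(2 : ℝ) ^ X * yv F i₀ w q l z ω - 2 ^ X * yv F i₀ w q l z ω'| ≤ 2 := by
          have e5 : (2 : ℝ) ^ X * yv F i₀ w q l z ω - 2 ^ X * yv F i₀ w q l z ω' =
              ((2 : ℝ) ^ X * F.gu w (q + w) l i₀ z ω i₀ -
                2 ^ X * F.gu w (q + w) l i₀ z ω' i₀) +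
              F.tw w ω * ((2 : ℝ) ^ X * F.gd q l i₀ z ω i₀ -
                2 ^ X * F.gd q l i₀ z ω' i₀) := by
            unfold yv
            rw [← t1]
            ring
          rw [e5]
          refine (abs_add_le _ _).trans ?_
          rw [abs_mul, abs_of_nonneg t0.1]
          have n4 : F.tw w ω * |(2 : ℝ) ^ X * F.gd q l i₀ z ω i₀ -
              2 ^ X * F.gd q l i₀ z ω' i₀| ≤ 1 * 1 :=
            mul_le_mul t0.2.le n2 (abs_nonneg _) zero_le_one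
          linarith
        have := Plk.floor_sub_lt n3
        linarith)
    refine k1.trans (le_of_eq (by norm_num))
  -- symmetry of the mutual information
  have s1 := CH_chain h0 (fun ω => ⌊(2 : ℝ) ^ X * F.gd q l i₀ z ω i₀⌋)
    (fun ω => ⌊(2 : ℝ) ^ X * yv F i₀ w q l z ω⌋) (fun ω => (F.qlb w q l i₀ z ω, F.T ω))
  have s2 := CH_chain h0 (fun ω => ⌊(2 : ℝ) ^ X * yv F i₀ w q l z ω⌋)
    (fun ω => ⌊(2 : ℝ) ^ X * F.gd q l i₀ z ω i₀⌋) (fun ω => (F.qlb w q l i₀ z ω, F.T ω))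
  have s3 : CH Q (fun ω => (⌊(2 : ℝ) ^ X * F.gd q l i₀ z ω i₀⌋,
      ⌊(2 : ℝ) ^ X * yv F i₀ w q l z ω⌋)) (fun ω => (F.qlb w q l i₀ z ω, F.T ω)) =
      CH Q (fun ω => (⌊(2 : ℝ) ^ X * yv F i₀ w q l z ω⌋,
      ⌊(2 : ℝ) ^ X * F.gd q l i₀ z ω i₀⌋)) (fun ω => (F.qlb w q l i₀ z ω, F.T ω)) := by
    refine CH_congr h0 ?_ ?_ (fun _ _ _ _ h => h) (fun _ _ _ _ h => h)
    · intro ω ω' _ _ h
      have h1 := Prod.ext_iff.mp (Prod.ext_iff.mp h).1
      exact Prod.ext h1.2 h1.1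
    · intro ω ω' _ _ h
      have h1 := Prod.ext_iff.mp (Prod.ext_iff.mp h).1
      exact Prod.ext h1.2 h1.1
  have a1 := CH_le_add h0 (fun ω => ⌊(2 : ℝ) ^ (q + w + X) * F.x ω i₀⌋)
    (fun ω => ⌊(2 : ℝ) ^ X * yv F i₀ w q l z ω⌋) (fun ω => (F.qlb w q l i₀ z ω, F.T ω))
  have a2 := CH_le_add h0 (fun ω => ⌊(2 : ℝ) ^ X * yv F i₀ w q l z ω⌋)
    (fun ω => ⌊(2 : ℝ) ^ X * F.gu w (q + w) l i₀ z ω i₀⌋)
    (fun ω => (⌊(2 : ℝ) ^ X * F.gd q l i₀ z ω i₀⌋, (F.qlb w q l i₀ z ω, F.T ω)))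
  have a3 : CH Q (fun ω => ⌊(2 : ℝ) ^ X * F.gu w (q + w) l i₀ z ω i₀⌋)
      (fun ω => (⌊(2 : ℝ) ^ X * F.gd q l i₀ z ω i₀⌋, (F.qlb w q l i₀ z ω, F.T ω))) ≤
      CH Q (fun ω => ⌊(2 : ℝ) ^ X * F.gu w (q + w) l i₀ z ω i₀⌋)
      (fun ω => (⌊(2 : ℝ) ^ X * F.gd q l i₀ z ω i₀⌋, F.qlb w q l i₀ z ω)) :=
    CH_mono_cond h0 (fun ω ω' _ _ h => by
      have h1 := Prod.ext_iff.mp h
      have h2 := Prod.ext_iff.mp h1.2
      exact Prod.ext h1.1 h2.1)
  linarith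

end Pool.K2S
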